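import Pool.Agent.Lib_MP_72f673_lc.DenseMain

set_option autoImplicit false

/-!
Linkages of minimum weight have few vertices in graphs of large minimum degree.
-/

namespace Pool.Agent.Results.MP_72f673_lc.DenseLinkage

open Pool.Agent.DLK

/-- `M ≤ c(e) ≤ ρ M` for all edges `e`. (1) If all degrees are at least `δ`, then every linkage of
minimum weight satisfies the stated bound on its number of vertices. (2) If all degrees are at
least `|V| / q`, then every linkage of minimum weight has at most `(4 ρ + 1) k q` vertices; (3) in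
particular there is a linkage of weight at most `w` if and only if there is one with at most
`(4 ρ + 1) k q` vertices. -/
theorem result {V : Type} [Fintype V] (G : SimpleGraph V) [DecidableRel G.Adj]
    (c : Sym2 V → ℕ) (M ρ : ℕ) (hM0 : 0 < M)
    (hM : ∀ u v, G.Adj u v → M ≤ c s(u, v)) (hR : ∀ u v, G.Adj u v → c s(u, v) ≤ ρ * M)
    (hρ : 1 ≤ ρ) (k : ℕ) (s t : Fin k → V) :
    (∀ δ : ℕ, (∀ v, δ ≤ G.degree v) →
      ∀ L : PLinkage G s t, (∀ L' : PLinkage G s t, L.weight c ≤ L'.weight c) →
        L.order * (δ + 2 * ρ + 1) ≤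
          2 * ρ * k * L.order + (2 * ρ + 1) * k * Fintype.card V) ∧
    (∀ q : ℕ, (∀ v, Fintype.card V ≤ q * G.degree v) →
      (∀ L : PLinkage G s t, (∀ L' : PLinkage G s t, L.weight c ≤ L'.weight c) →
        L.order ≤ (4 * ρ + 1) * k * q) ∧
      ∀ w : ℕ, (∃ L : PLinkage G s t, L.weight c ≤ w) ↔
        ∃ L : PLinkage G s t, L.weight c ≤ w ∧ L.order ≤ (4 * ρ + 1) * k * q) := by
  classical
  have hdeg : ∀ v, G.degree v = (Finset.univ.filter (fun w => G.Adj v w)).card := by
    intro v
    rw [← SimpleGraph.card_neighborFinset_eq_degree]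
    congr 1
    ext w
    simp
  refine ⟨fun δ hδ L hmin => order_bound c M ρ δ hM0 hρ hM hR L hmin (fun v => ?_),
    fun q hq => ?_⟩
  · have := hδ v
    rw [hdeg] at this
    convert this
  · have hB : ∀ L : PLinkage G s t, (∀ L' : PLinkage G s t, L.weight c ≤ L'.weight c) →
        L.order ≤ (4 * ρ + 1) * k * q := fun L hmin =>
      order_dense c M ρ q hM0 hρ hM hR L hmin (fun v => by
        have := hq v
        rw [hdeg] at this
        convert this)
    refine ⟨hB, fun w => ⟨?_, fun ⟨L, h, _⟩ => ⟨L, h⟩⟩⟩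
    rintro ⟨L, hL⟩
    obtain ⟨L0, -, h0⟩ := (measure (fun L : PLinkage G s t => L.weight c)).wf.has_min
      Set.univ ⟨L, trivial⟩
    have h1 : ∀ L' : PLinkage G s t, L0.weight c ≤ L'.weight c := fun L' =>
      Nat.le_of_not_lt (h0 L' trivial)
    exact ⟨L0, (h1 L).trans hL, hB L0 h1⟩

end Pool.Agent.Results.MP_72f673_lc.DenseLinkage
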