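import Pool.Agent.Lib_MP_72f673_lc.ExSigned
import Pool.Agent.Lib_MP_72f673_lc.PosSigned

set_option autoImplicit false

/-!
# What signed source-sink counts say about linkages

For a graph with `2 k` terminals `s_1, t_1, ..., s_k, t_k` and a set `S` of terminals the signed
source-sink counts are the numbers of families of vertex-disjoint paths, of given total weight,
which join the terminals in `S` to the other ones, such that the bijection from `S` to its
complement is even, respectively odd. (Their sum and difference are the quantities computed by
permanents and by determinants.)

We determine for which `j ≤ k` these counts decide whether there is a linkage in which the first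
`j` pairs are joined as prescribed and the other terminals arbitrarily.  This is so if and only if
`j ≤ 1` or `k ≤ 3`, and in these cases a multiple of the number of such linkages is an integral
combination of the signed source-sink counts.
-/

namespace Pool.Agent.Results.MP_72f673_lc.SignedCounts

open Pool.Agent.SSK

theorem result (k j : ℕ) (hj : j ≤ k) :
    List.TFAE [SignedLinearlyDetermined k j, SignedExistenceDetermined k j, j ≤ 1 ∨ k ≤ 3] := by
  tfae_have 1 → 2 := by
    rintro ⟨N, hN, lam, h⟩ X Y hXY ⟨W, hW⟩
    refine ⟨W, ?_⟩
    have h1 := h X W
    have h2 := h Y W
    have h3 : ∑ S, ∑ e, lam S e * (signedCount X S e W : ℤ) =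
        ∑ S, ∑ e, lam S e * (signedCount Y S e W : ℤ) :=
      Finset.sum_congr rfl fun S _ => Finset.sum_congr rfl fun e _ => by rw [hXY]
    rw [h3, ← h2] at h1
    have h4 : (prescribed X j W : ℤ) = prescribed Y j W := mul_left_cancel₀ hN h1
    have h5 : prescribed X j W = prescribed Y j W := by exact_mod_cast h4
    rwa [← h5]
  tfae_have 2 → 3 := by
    intro h
    by_contra hcon
    push Not at hcon
    have hk : 4 ≤ k := by omega
    obtain ⟨W, hW⟩ := h (BI (NT (k := k) nbP)) (BI (NT (k := k) nbQ)) (signed_counts_eq hk)
      ⟨4 * k, prescribed_P hk j⟩
    exact hW (prescribed_Q hk j (by omega) W)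
  tfae_have 3 → 1 := by
    intro h
    rcases Nat.lt_or_ge 1 j with h1 | h1
    · rcases Nat.lt_or_ge 2 k with h2 | h2
      · have hk : k = 3 := by omega
        subst hk
        exact signed_three j (by omega) hj
      · have hk : k = 2 := by omega
        have hj2 : j = 2 := by omega
        subst hk
        subst hj2
        exact signed_of_linear 2 2 linear_two
    · rcases Nat.lt_or_ge 0 j with h2 | h2
      · have hj1 : j = 1 := by omega
        subst hj1
        exact signed_of_linear k 1 (linear_one k (by omega))
      · have hj0 : j = 0 := by omega
        subst hj0
        exact signed_of_linear k 0 (linear_zero k)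
  tfae_finish

end Pool.Agent.Results.MP_72f673_lc.SignedCounts
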