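import Pool.Agent.Lib_MP_72f673_lc.Lift

set_option autoImplicit false

/-!
# What source-sink counts say about linkages

For a graph with `2 k` terminals `s_1, t_1, ..., s_k, t_k` and a set `S` of terminals (sources; the
other terminals are sinks) the source-sink count is the number of families of vertex-disjoint paths,
of given total weight, which join all sources to all sinks in an arbitrary way.  These numbers
(modulo a power of two, computed by permanents) are what the known algorithm for two pairs of
terminals uses.

We determine for which `j ≤ k` these counts decide whether there is a linkage in which the first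
`j` pairs are joined as prescribed and the other terminals arbitrarily.  This is so if and only if
`j ≤ 1` or `k ≤ 2`, and in these cases `2 ^ k` times the number of such linkages is a sum of the
source-sink counts with signs.
-/

namespace Pool.Agent.Results.MP_72f673_lc.SourceSink

open Pool.Agent.SSK

theorem result (k j : ℕ) (hj : j ≤ k) :
    List.TFAE [LinearlyDetermined k j, ExistenceDetermined k j, j ≤ 1 ∨ k ≤ 2] := by
  tfae_have 1 → 2 := by
    rintro ⟨lam, -, h⟩ X Y hXY ⟨W, hW⟩
    refine ⟨W, ?_⟩
    have h1 := h X W
    have h2 := h Y W
    have h3 : ∑ S, lam S * (sourceSink X S W : ℤ) = ∑ S, lam S * (sourceSink Y S W : ℤ) :=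
      Finset.sum_congr rfl fun S _ => by rw [hXY]
    rw [h3, ← h2] at h1
    have h4 : (prescribed X j W : ℤ) = prescribed Y j W :=
      mul_left_cancel₀ (by positivity) h1
    have h5 : prescribed X j W = prescribed Y j W := by exact_mod_cast h4
    rwa [← h5]
  tfae_have 2 → 3 := by
    intro h
    by_contra hcon
    push Not at hcon
    have hk : 3 ≤ k := by omega
    obtain ⟨W, hW⟩ := h (BI (NN (ex1 (k := k)))) (BI (NN (ex2 (k := k)))) (counts_eq hk)
      ⟨4 * k, prescribed_one hk j⟩
    exact hW (prescribed_two hk j (by omega) W)
  tfae_have 3 → 1 := by
    intro h
    rcases Nat.lt_or_ge 1 j with h1 | h1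
    · have hk : k = 2 := by omega
      have hj2 : j = 2 := by omega
      subst hk
      subst hj2
      exact linear_two
    · rcases Nat.lt_or_ge 0 j with h2 | h2
      · have hj1 : j = 1 := by omega
        subst hj1
        exact linear_one k (by omega)
      · have hj0 : j = 0 := by omega
        subst hj0
        exact linear_zero k
  tfae_finish

end Pool.Agent.Results.MP_72f673_lc.SourceSink
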